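import Pool.Agent.Helper84.TL.Defs

/-!
# Project TL, module TL-D: sequential predictors, averaged over all orders
-/

set_option autoImplicit false

namespace Pool.Agent.Helper84.TL

open Finset Pool.Agent.Lead.TB

namespace H30Order

/-- The averaged code length, with a general cost function. -/
noncomputable def Phi {n : ℕ} (F : Finset (Fin n) → Fin n → ℝ) (U : Finset (Fin n)) : ℝ :=
  ∑ v ∈ U, ∑ A ∈ (U.erase v).powerset, wt U.card A.card * F (insert v A) v

theorem wt_self {u : ℕ} (hu : 1 ≤ u) : wt u (u - 1) = 1 / u := by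
  obtain ⟨m, rfl⟩ : ∃ m, u = m + 1 := ⟨u - 1, by omega⟩
  unfold wt
  rw [show m + 1 - 1 - (m + 1 - 1) = 0 by omega, show m + 1 - 1 = m by omega,
    Nat.factorial_succ, Nat.factorial_zero]
  push_cast
  have h1 : (m.factorial : ℝ) ≠ 0 := by exact_mod_cast m.factorial_ne_zero
  have h2 : (m : ℝ) + 1 ≠ 0 := by positivity
  field_simp

theorem wt_rec {u k : ℕ} (hk : k + 2 ≤ u) :
    (1 / (u : ℝ)) * ((u - 1 - k : ℕ) : ℝ) * wt (u - 1) k = wt u k := by
  obtain ⟨m, rfl⟩ : ∃ m, u = m + k + 2 := ⟨u - k - 2, by omega⟩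
  unfold wt
  rw [show m + k + 2 - 1 - 1 - k = m by omega, show m + k + 2 - 1 - k = m + 1 by omega,
    show m + k + 2 - 1 = m + k + 1 by omega, show m + k + 2 = (m + k + 1) + 1 by omega,
    Nat.factorial_succ (m + k + 1), Nat.factorial_succ m]
  have h1 : ((m + k + 1).factorial : ℝ) ≠ 0 := by exact_mod_cast (m + k + 1).factorial_ne_zero
  have h2 : (m : ℝ) + k + 1 + 1 ≠ 0 := by positivity
  push_cast
  field_simp

theorem sum_swap {α : Type} [DecidableEq α] (X : Finset α) (g : Finset α → ℝ) :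
    ∑ x ∈ X, ∑ A ∈ (X.erase x).powerset, g A = ∑ A ∈ X.powerset, ((X.card - A.card : ℕ) : ℝ) * g A := by
  have h1 : ∀ x ∈ X, ∑ A ∈ (X.erase x).powerset, g A =
      ∑ A ∈ X.powerset, if x ∈ A then 0 else g A := by
    intro x hx
    have e1 : ∀ A ∈ X.powerset, (if x ∈ A then (0 : ℝ) else g A) = if x ∉ A then g A else 0 := by
      intro A _
      by_cases h : x ∈ A <;> simp [h]
    rw [Finset.sum_congr rfl e1, ← Finset.sum_filter]
    refine Finset.sum_congr ?_ fun _ _ => rfl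
    ext A
    simp only [mem_powerset, mem_filter]
    constructor
    · intro h
      exact ⟨h.trans (erase_subset _ _), fun hA => (mem_erase.1 (h hA)).1 rfl⟩
    · rintro ⟨h, hA⟩
      exact fun y hy => mem_erase.2 ⟨fun e => hA (e ▸ hy), h hy⟩
  rw [Finset.sum_congr rfl h1, Finset.sum_comm]
  refine Finset.sum_congr rfl fun A hA => ?_
  have hAX := mem_powerset.1 hA
  have e2 : ∀ x ∈ X, (if x ∈ A then (0 : ℝ) else g A) = if x ∉ A then g A else 0 := by
    intro x _
    by_cases h : x ∈ A <;> simp [h]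
  rw [Finset.sum_congr rfl e2, ← Finset.sum_filter, Finset.sum_const, nsmul_eq_mul]
  rw [show X.filter (fun x => x ∉ A) = X \ A from by ext y; simp [mem_sdiff],
    Finset.card_sdiff_of_subset hAX]

theorem Phi_rec {n : ℕ} (F : Finset (Fin n) → Fin n → ℝ) {U : Finset (Fin n)}
    (hU : U.Nonempty) :
    Phi F U = ∑ v ∈ U, (1 / (U.card : ℝ)) * (F U v + Phi F (U.erase v)) := by
  have hu : 1 ≤ U.card := hU.card_pos
  have hsw : ∑ x ∈ U, Phi F (U.erase x) =
      ∑ v ∈ U, ∑ A ∈ (U.erase v).powerset,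
        ((U.card - 1 - A.card : ℕ) : ℝ) * (wt (U.card - 1) A.card * F (insert v A) v) := by
    unfold Phi
    have h1 : ∀ x ∈ U, ∑ v ∈ U.erase x, ∑ A ∈ ((U.erase x).erase v).powerset,
        wt (U.erase x).card A.card * F (insert v A) v =
        ∑ v ∈ U.erase x, ∑ A ∈ ((U.erase x).erase v).powerset,
          wt (U.card - 1) A.card * F (insert v A) v := by
      intro x hx
      rw [card_erase_of_mem hx]
    rw [Finset.sum_congr rfl h1]
    have h2 : ∀ f : Fin n → Fin n → ℝ, ∑ x ∈ U, ∑ v ∈ U.erase x, f x v =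
        ∑ v ∈ U, ∑ x ∈ U.erase v, f x v := by
      intro f
      apply Finset.sum_comm'
      intro x y
      simp only [mem_erase]
      tauto
    rw [h2]
    refine Finset.sum_congr rfl fun v hv => ?_
    have h3 : ∀ x, ((U.erase x).erase v).powerset = ((U.erase v).erase x).powerset := by
      intro x
      rw [erase_right_comm]
    simp only [h3]
    rw [sum_swap (U.erase v) (fun A => wt (U.card - 1) A.card * F (insert v A) v),
      card_erase_of_mem hv]
  have h4 : ∑ v ∈ U, (1 / (U.card : ℝ)) * (F U v + Phi F (U.erase v)) =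
      ∑ v ∈ U, (1 / (U.card : ℝ)) * F U v + (1 / (U.card : ℝ)) * ∑ v ∈ U, Phi F (U.erase v) := by
    rw [Finset.mul_sum, ← Finset.sum_add_distrib]
    exact Finset.sum_congr rfl fun v _ => by ring
  rw [h4, hsw, Finset.mul_sum, ← Finset.sum_add_distrib]
  unfold Phi
  refine Finset.sum_congr rfl fun v hv => ?_
  have hmem : U.erase v ∈ (U.erase v).powerset := mem_powerset.2 (Subset.refl _)
  rw [← Finset.add_sum_erase _ _ hmem, Finset.mul_sum, ← Finset.add_sum_erase _ _ hmem,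
    insert_erase hv, card_erase_of_mem hv, wt_self hu, Nat.sub_self]
  have h5 : ∀ A ∈ (U.erase v).powerset.erase (U.erase v),
      wt U.card A.card * F (insert v A) v = (1 / (U.card : ℝ)) *
        (((U.card - 1 - A.card : ℕ) : ℝ) * (wt (U.card - 1) A.card * F (insert v A) v)) := by
    intro A hA
    obtain ⟨h6, h7⟩ := mem_erase.1 hA
    have h8 : A.card < (U.erase v).card :=
      card_lt_card (lt_of_le_of_ne (mem_powerset.1 h7) h6)
    rw [card_erase_of_mem hv] at h8
    rw [← wt_rec (u := U.card) (k := A.card) (by omega)]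
    ring
  rw [Finset.sum_congr rfl h5]
  simp

/-- The cost function of a permutation. -/
noncomputable def Fn {n : ℕ} (ω : Finset (Fin n) → Finset (Fin n) → Fin n → Fin n → ℝ)
    (σ : Equiv.Perm (Fin n)) (W : Finset (Fin n)) (v : Fin n) : ℝ :=
  -Real.log (ω W (W.image σ) v (σ v))

theorem image_eq {n : ℕ} {σ τ : Equiv.Perm (Fin n)} {U : Finset (Fin n)}
    (h : ∀ x, x ∉ U → σ x = τ x) : U.image σ = U.image τ := by
  have key : ∀ {σ τ : Equiv.Perm (Fin n)}, (∀ x, x ∉ U → σ x = τ x) → U.image σ ⊆ U.image τ := by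
    intro σ τ h y hy
    obtain ⟨x, hx, rfl⟩ := mem_image.1 hy
    refine mem_image.2 ⟨τ.symm (σ x), ?_, by simp⟩
    by_contra hc
    have := h _ hc
    rw [Equiv.apply_symm_apply] at this
    have h2 : (Equiv.symm τ) (σ x) = x := σ.injective this
    exact hc (h2.symm ▸ hx)
  exact Subset.antisymm (key h) (key fun x hx => (h x hx).symm)

theorem main {n : ℕ} (G : Gr n)
    (ω : Finset (Fin n) → Finset (Fin n) → Fin n → Fin n → ℝ)
    (hpos : ∀ U K v w, v ∈ U → w ∈ K → w ∈ G v → 0 < ω U K v w)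
    (hsum : ∀ U K v, v ∈ U → ∑ w ∈ G v ∩ K, ω U K v w ≤ 1) (u : ℕ) :
    ∀ (U : Finset (Fin n)), U.card = u → ∀ σ₀ : Equiv.Perm (Fin n),
      ∑ σ ∈ (pm G).filter (fun σ => ∀ x, x ∉ U → σ x = σ₀ x),
        Real.exp (-Phi (Fn ω σ) U) ≤ 1 := by
  induction u with
  | zero =>
    intro U hU σ₀
    obtain rfl := card_eq_zero.1 hU
    have h1 : (pm G).filter (fun σ => ∀ x, x ∉ (∅ : Finset (Fin n)) → σ x = σ₀ x) ⊆ {σ₀} := by
      intro σ hσ
      rw [mem_singleton]
      exact Equiv.ext fun x => (mem_filter.1 hσ).2 x (notMem_empty _)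
    calc ∑ σ ∈ (pm G).filter (fun σ => ∀ x, x ∉ (∅ : Finset (Fin n)) → σ x = σ₀ x),
          Real.exp (-Phi (Fn ω σ) ∅)
        ≤ ∑ σ ∈ ({σ₀} : Finset (Equiv.Perm (Fin n))), Real.exp (-Phi (Fn ω σ) ∅) :=
          Finset.sum_le_sum_of_subset_of_nonneg h1 fun _ _ _ => (Real.exp_pos _).le
      _ ≤ 1 := by simp [Phi]
  | succ u ih =>
    intro U hU σ₀
    have hne : U.Nonempty := card_pos.1 (by omega)
    set K := U.image σ₀ with hK
    set S := (pm G).filter (fun σ => ∀ x, x ∉ U → σ x = σ₀ x) with hS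
    have hSG : ∀ σ ∈ S, ∀ v, σ v ∈ G v := by
      intro σ hσ v
      have := (mem_filter.1 hσ).1
      simp only [pm, mem_filter] at this
      exact this.2 v
    have hSK : ∀ σ ∈ S, U.image σ = K := fun σ hσ => image_eq (mem_filter.1 hσ).2
    have hu0 : (0 : ℝ) < U.card := by rw [hU]; positivity
    have hw : ∑ _v ∈ U, (1 / (U.card : ℝ)) = 1 := by
      rw [Finset.sum_const, nsmul_eq_mul]
      field_simp
    have hconv : ∀ σ ∈ S, Real.exp (-Phi (Fn ω σ) U) ≤
        ∑ v ∈ U, (1 / (U.card : ℝ)) * (ω U K v (σ v) * Real.exp (-Phi (Fn ω σ) (U.erase v))) := by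
      intro σ hσ
      have h1 := convexOn_exp.map_sum_le (t := U) (w := fun _ => 1 / (U.card : ℝ))
        (p := fun v => -(Fn ω σ U v + Phi (Fn ω σ) (U.erase v)))
        (fun _ _ => by positivity) hw (fun _ _ => Set.mem_univ _)
      simp only [smul_eq_mul] at h1
      rw [Phi_rec _ hne, ← Finset.sum_neg_distrib]
      have h2 : ∀ v ∈ U, -(1 / (U.card : ℝ) * (Fn ω σ U v + Phi (Fn ω σ) (U.erase v))) =
          1 / (U.card : ℝ) * -(Fn ω σ U v + Phi (Fn ω σ) (U.erase v)) := fun v _ => by ring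
      rw [Finset.sum_congr rfl h2]
      refine h1.trans (le_of_eq (Finset.sum_congr rfl fun v hv => ?_))
      congr 1
      have h3 : 0 < ω U K v (σ v) := hpos U K v (σ v) hv
        (by rw [← hSK σ hσ]; exact mem_image_of_mem _ hv) (hSG σ hσ v)
      rw [neg_add, Real.exp_add]
      unfold Fn
      rw [neg_neg, hSK σ hσ, Real.exp_log h3]
    have hv1 : ∀ v ∈ U, ∑ σ ∈ S, ω U K v (σ v) * Real.exp (-Phi (Fn ω σ) (U.erase v)) ≤ 1 := by
      intro v hv
      have hmaps : ∀ σ ∈ S, σ v ∈ G v ∩ K := fun σ hσ => mem_inter.2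
        ⟨hSG σ hσ v, by rw [← hSK σ hσ]; exact mem_image_of_mem _ hv⟩
      rw [← Finset.sum_fiberwise_of_maps_to hmaps]
      refine le_trans (Finset.sum_le_sum fun w hw => ?_) (hsum U K v hv)
      obtain ⟨hwG, hwK⟩ := mem_inter.1 hw
      have h0 : 0 < ω U K v w := hpos U K v w hv hwK hwG
      have h4 : ∑ σ ∈ S.filter (fun σ => σ v = w),
          ω U K v (σ v) * Real.exp (-Phi (Fn ω σ) (U.erase v)) =
          ω U K v w * ∑ σ ∈ S.filter (fun σ => σ v = w),
            Real.exp (-Phi (Fn ω σ) (U.erase v)) := by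
        rw [Finset.mul_sum]
        exact Finset.sum_congr rfl fun σ hσ => by rw [(mem_filter.1 hσ).2]
      rw [h4]
      have h5 : ∑ σ ∈ S.filter (fun σ => σ v = w), Real.exp (-Phi (Fn ω σ) (U.erase v)) ≤ 1 := by
        rcases (S.filter (fun σ => σ v = w)).eq_empty_or_nonempty with he | ⟨σ₁, hσ₁⟩
        · rw [he]
          simp
        · refine le_trans (Finset.sum_le_sum_of_subset_of_nonneg ?_
            fun _ _ _ => (Real.exp_pos _).le)
            (ih (U.erase v) (by rw [card_erase_of_mem hv]; omega) σ₁)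
          intro σ hσ
          obtain ⟨hσS, hσv⟩ := mem_filter.1 hσ
          obtain ⟨hσ₁S, hσ₁v⟩ := mem_filter.1 hσ₁
          refine mem_filter.2 ⟨(mem_filter.1 hσS).1, fun x hx => ?_⟩
          by_cases hxv : x = v
          · rw [hxv, hσv, hσ₁v]
          · have hxU : x ∉ U := fun h => hx (mem_erase.2 ⟨hxv, h⟩)
            rw [(mem_filter.1 hσS).2 x hxU, (mem_filter.1 hσ₁S).2 x hxU]
      calc ω U K v w * ∑ σ ∈ S.filter (fun σ => σ v = w), Real.exp (-Phi (Fn ω σ) (U.erase v))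
          ≤ ω U K v w * 1 := mul_le_mul_of_nonneg_left h5 h0.le
        _ = ω U K v w := mul_one _
    calc ∑ σ ∈ S, Real.exp (-Phi (Fn ω σ) U)
        ≤ ∑ σ ∈ S, ∑ v ∈ U, (1 / (U.card : ℝ)) *
            (ω U K v (σ v) * Real.exp (-Phi (Fn ω σ) (U.erase v))) := Finset.sum_le_sum hconv
      _ = ∑ v ∈ U, (1 / (U.card : ℝ)) *
            ∑ σ ∈ S, ω U K v (σ v) * Real.exp (-Phi (Fn ω σ) (U.erase v)) := by
          rw [Finset.sum_comm]
          exact Finset.sum_congr rfl fun v _ => by rw [Finset.mul_sum]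
      _ ≤ ∑ v ∈ U, (1 / (U.card : ℝ)) * 1 := Finset.sum_le_sum fun v hv =>
          mul_le_mul_of_nonneg_left (hv1 v hv) (by positivity)
      _ = 1 := by simpa using hw

end H30Order

theorem order_avg {n : ℕ} (G : Gr n)
    (ω : Finset (Fin n) → Finset (Fin n) → Fin n → Fin n → ℝ)
    (hpos : ∀ U K v w, v ∈ U → w ∈ K → w ∈ G v → 0 < ω U K v w)
    (hsum : ∀ U K v, v ∈ U → ∑ w ∈ G v ∩ K, ω U K v w ≤ 1) :
    ∑ σ ∈ pm G, Real.exp (∑ v, ∑ A ∈ (univ.erase v).powerset, wt n A.card *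
      Real.log (ω (insert v A) ((insert v A).image σ) v (σ v))) ≤ 1 := by
  have h := H30Order.main G ω hpos hsum _ univ rfl 1
  have h1 : (pm G).filter (fun σ => ∀ x, x ∉ (univ : Finset (Fin n)) → σ x =
      (1 : Equiv.Perm (Fin n)) x) = pm G :=
    filter_true_of_mem fun σ _ x hx => absurd (mem_univ x) hx
  rw [h1] at h
  refine le_of_eq_of_le (Finset.sum_congr rfl fun σ _ => ?_) h
  congr 1
  unfold H30Order.Phi H30Order.Fn
  rw [card_univ, Fintype.card_fin, ← Finset.sum_neg_distrib]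
  refine Finset.sum_congr rfl fun v _ => ?_
  rw [← Finset.sum_neg_distrib]
  exact Finset.sum_congr rfl fun A _ => by ring

end Pool.Agent.Helper84.TL
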